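import Mathlib
import Pool.Agent.T2h14.PW.Stm

/-!
# Varieties whose cohomology is generated by root vectors: statements
-/

set_option autoImplicit false

open CategoryTheory AlgebraicGeometry

universe u v w

namespace Pool.Agent.T2h14.RG

open Polynomial Pool.Agent.H914 Pool.Agent.H914.VarClass Pool.Agent.H914.VarClass.Obj
  Pool.Agent.W492.BB Pool.Agent.W484.CK Pool.Agent.Y154.BQ Pool.Agent.T2h14.PW.Stm

variable {k : Type u} [Field k] {𝒱 : VarClass k} {C : TheoryData.{u, v, 0} 𝒱 ℚ} {K : Type w}
  [Field K] (H : WeilTheoryData.{u, v, w} C K) {W Z : 𝒱.Obj}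

/-- Products `c v 1 ⋯ v n`, `n ≥ 0`, of the class `c` of an algebraic cycle and of elements `v l` with
`V (i l) (z l) (v l)`. -/
inductive IsRootProduct {I : Type} (V : I → K → H.A W → Prop) : H.A W → Prop
  | cycle (c : H.A W) : IsCycleClass H c → IsRootProduct V c
  | mul (a v : H.A W) (i : I) (z : K) : IsRootProduct V a → V i z v → IsRootProduct V (H.mul a v)

/-- The cohomology of `W` is generated by the classes of algebraic cycles and by root vectors
(`V i z v`): `v` in `H^(w i)(W)` is an eigenvector of Frobenius with eigenvalue `z ^ s`, where `z` is a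
root of `f i`; and the product of two root vectors with `z z' = q ^ (w i)`, for the same `i`, is a
combination of classes of cycles of codimension `w i`. -/
structure IsRootSystem (π : W ⟶ W) (q s : ℕ) {I : Type} (w : I → ℕ) (f : I → ℤ[X])
    (V : I → K → H.A W → Prop) : Prop where
  root : ∀ i z v, V i z v → aeval z (f i) = 0 ∧ H.Deg (w i) v ∧ H.up π v = z ^ s • v
  spanned : ∀ c : H.A W, InSpan H (IsRootProduct H V) c
  pair : ∀ i z z' v v', V i z v → V i z' v' → z * z' = (q : K) ^ w i →
    InSpan H (fun a => ∃ D : C.A W, C.Deg (w i) D ∧ a = H.cl D) (H.mul v v')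

/-- The cohomology of `W` is generated by the classes of algebraic cycles and by root vectors. -/
def IsRootGenerated (π : W ⟶ W) (q s : ℕ) {I : Type} (w : I → ℕ) (f : I → ℤ[X]) : Prop :=
  ∃ V : I → K → H.A W → Prop, IsRootSystem H π q s w f V

/-- The situation of the theorems: the cohomology of `W`, a variety over the field with `q ^ s` elements
with Frobenius endomorphism `πW`, is generated by the classes of algebraic cycles and by root vectors
for the polynomials `f i` of weights `w i`; `Z` is **any** variety such that the eigenvalues of its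
Frobenius endomorphism `πZ` on the cohomology lie up to powers in a group generated by the elements of
the field `E` and `r` numbers; and `πW × πZ` acts on the Chow groups of `W × Z` in the usual way. -/
structure IsSituation [CharZero K] (E : IntermediateField ℚ ℂ) (q r s : ℕ) {I : Type} (w : I → ℕ)
    (f : I → ℤ[X]) (πW : W ⟶ W) (πZ : Z ⟶ Z) : Prop where
  standard : IsStandard H
  comm : IsGradedCommutative H
  pos : 0 < s
  generated : IsRootGenerated H πW q s w f
  frobenius : IsFrobenius C πW (q ^ s)
  rank : EigenvaluesOfRank H E r πZ
  frobenius_prod : IsFrobenius C (prodMap πW πZ) (q ^ s)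

end Pool.Agent.T2h14.RG
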