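import Mathlib
import Pool.Agent.T2h14.RG.Stm

/-!
# The Kunneth formula for the Chow groups and the intersection pairings: statement
-/

set_option autoImplicit false

open CategoryTheory AlgebraicGeometry

namespace Pool.Agent.T2h14.RG

open Polynomial Pool.Agent.H914 Pool.Agent.H914.VarClass Pool.Agent.H914.VarClass.Obj
  Pool.Agent.W492.BB Pool.Agent.W484.CK Pool.Agent.Y154.BQ Pool.Agent.T2h14.PW.Stm

/-- `PairingForGenerated E q r w f`: the following holds for the Chow groups `C` with rational
coefficients of all classes `𝒱` of varieties over fields `k` (finite, in the intended use), every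
Weil cohomology theory `H` with coefficients in an algebraically closed field `K` of characteristic
zero and all `W`, `Z` as in `IsSituation`, where `W` is projective and the homologically trivial
self-correspondences of `W × Z` of degree zero are nilpotent: the Kunneth formula holds for the Chow
groups of `W × Z`, and for every `n` the pairing
`CH^n(W × Z)_ℝ × CH^(dim W + dim Z - n)(W × Z)_ℝ → ℝ` is perfect if and only if the pairings
`CH^m(Z)_ℝ × CH^(dim Z - m)(Z)_ℝ → ℝ` with `n - dim W ≤ m ≤ n` are perfect. -/
def PairingForGenerated (E : IntermediateField ℚ ℂ) (q r : ℕ) {I : Type} (w : I → ℕ)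
    (f : I → ℤ[X]) : Prop :=
  ∀ (k : Type) [Field k] (𝒱 : VarClass k) (C : TheoryData.{0, 0, 0} 𝒱 ℚ) [IsChow C]
    (K : Type) [Field K] [IsAlgClosed K] [CharZero K] (H : WeilTheoryData.{0, 0, 0} C K)
    [IsWeil H] (s : ℕ) (W Z : 𝒱.Obj) (πW : W ⟶ W) (πZ : Z ⟶ Z),
      RG.IsSituation H E q r s w f πW πZ → Nilpotence H (W.prod Z) → HasBigDivisor C W →
        PW.Stm.ChowKunneth C W Z ∧ PairingsReduce C W Z

end Pool.Agent.T2h14.RG
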