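import Mathlib
import Pool.Agent.T2h14.RG.Stm
import Pool.Agent.T2h14.PW.Prod

/-!
# Varieties whose cohomology is generated by root vectors: the good basis
-/

set_option autoImplicit false
set_option linter.unusedSectionVars false

open CategoryTheory AlgebraicGeometry

universe u v w

namespace Pool.Agent.T2h14.RG

open Module Polynomial Pool.Agent.H914 Pool.Agent.H914.VarClass Pool.Agent.H914.VarClass.Obj
  Pool.Agent.W492.BB Pool.Agent.W550.Corr Pool.Agent.W484.CH Pool.Agent.W484.TB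
  Pool.Agent.W484.AA Pool.Agent.W484.BB Pool.Agent.T2h14.PW

variable {k : Type u} [Field k] {𝒱 : VarClass k} {C : TheoryData.{u, v, 0} 𝒱 ℚ} {K : Type w}
  [Field K] [CharZero K] {H : WeilTheoryData.{u, v, w} C K} [hC : IsChow C] [hH : IsWeil H]
  {W Z : 𝒱.Obj} {I : Type} {q s : ℕ} {w : I → ℕ} {f : I → ℤ[X]} {πW : W ⟶ W}
  {V : I → K → H.A W → Prop} (hV : IsRootSystem H πW q s w f V)

/-- The products of classes of cycles and of root vectors. -/
def MonoV (f : I → ℤ[X]) (V : I → K → H.A W → Prop) : Set (H.A W) :=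
  {v | ∃ (n : ℕ) (a : H.A W) (L : List (H.A W × Lb K f)), a ∈ GK H W n ∧
    (∀ e ∈ L, V e.2.1 (e.2.2 : K) e.1) ∧ v = a * (L.map Prod.fst).prod}

include hV in
theorem rootProduct_mem {a : H.A W} (ha : IsRootProduct H V a) : a ∈ MonoV f V := by
  induction ha with
  | cycle c hc =>
    obtain ⟨i, z, hz, rfl⟩ := hc
    exact ⟨i, H.cl z, [], Submodule.subset_span ⟨z, hz, rfl⟩, by simp, by simp⟩
  | mul a v i z _ hv ih =>
    obtain ⟨n, c, L, hc, hL, rfl⟩ := ih
    refine ⟨n, c, L ++ [(v, ⟨i, z, (hV.root i z v hv).1⟩)], hc, ?_, ?_⟩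
    · intro e he
      rcases List.mem_append.1 he with h | h
      · exact hL e h
      · rw [List.mem_singleton] at h
        subst h
        exact hv
    · rw [List.map_append, List.prod_append, ← mul_assoc]
      simp only [List.map_cons, List.map_nil, List.prod_singleton]

include hV in
theorem span_monoV : Submodule.span K (MonoV f V) = ⊤ := by
  rw [eq_top_iff]
  intro c _
  exact Submodule.span_mono (fun a ha => rootProduct_mem hV ha) (hV.spanned c)

include hV in
theorem list_eigenV (L : List (H.A W × Lb K f)) (hL : ∀ e ∈ L, V e.2.1 (e.2.2 : K) e.1) :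
    H.pull πW (L.map Prod.fst).prod =
      (L.map (fun e => (e.2.2 : K) ^ s)).prod • (L.map Prod.fst).prod := by
  induction L with
  | nil => simp
  | cons e L ih =>
    have h1 : H.pull πW e.1 = (e.2.2 : K) ^ s • e.1 := (hV.root _ _ _ (hL e (by simp))).2.2
    rw [List.map_cons, List.prod_cons, map_mul, h1,
      ih (fun e' he' => hL e' (List.mem_cons_of_mem _ he')), List.map_cons, List.prod_cons,
      smul_mul_smul_comm]

variable (hcm : PW.Stm.IsGradedCommutative H) {E : IntermediateField ℚ ℂ} {r : ℕ} (hq : q ≠ 0)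
  (hf : ∀ i, f i ≠ 0) (hno : PW.Stm.NoRelations E q r w f) (hs : 0 < s)

include hV hcm hq hf hno hs in
/-- **The induction.** -/
theorem list_memV {χ : ℚ[X]} (hχ : χ ≠ 0)
    (hrank : RankLEOver E r {ρ : ℂ | aeval ρ χ = 0}) {ρ : K} (hρ : aeval ρ χ = 0) :
    ∀ (n : ℕ) (c : ℤ) (L : List (H.A W × Lb K f)), L.length = n →
      (∀ e ∈ L, V e.2.1 (e.2.2 : K) e.1) →
      (L.map (fun e => (e.2.2 : K) ^ s)).prod * ρ = ((q : K) ^ s) ^ c →
      ∃ l : ℕ, (L.map (fun e => (e.2.2 : K) ^ s)).prod = ((q : K) ^ s) ^ l ∧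
        (L.map Prod.fst).prod ∈ GK H W l := by
  intro n
  induction n using Nat.strong_induction_on with
  | _ n ih =>
    intro c L hlen hL hrel
    have hQ0 : (q : K) ^ s ≠ 0 := pow_ne_zero _ (by exact_mod_cast hq)
    rcases Nat.eq_zero_or_pos n with hn | hn
    · subst hn
      have hL0 : L = [] := List.length_eq_zero_iff.1 hlen
      subst hL0
      exact ⟨0, by simp, by simpa using one_mem_GK⟩
    · have h3 := not_pairwise E hf hno hs hχ hrank hρ c 1 one_pos (L.map Prod.snd) (by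
        rw [Ne, List.map_eq_nil_iff]
        rintro rfl
        rw [List.length_nil] at hlen
        omega) (by
        rw [List.map_map, pow_one, pow_one]
        exact hrel)
      rw [List.pairwise_map] at h3
      obtain ⟨e, e', L', hperm, hgood⟩ := exists_of_not_pairwise _ L h3
      rw [not_not] at hgood
      have heL : e ∈ L := hperm.mem_iff.2 (by simp)
      have heL' : e' ∈ L := hperm.mem_iff.2 (by simp)
      have hlen' : n = L'.length + 2 := by
        have h2 := hperm.length_eq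
        rw [List.length_cons, List.length_cons, hlen] at h2
        omega
      obtain ⟨b', hb'⟩ := prod_perm_scalar (K := K) (hperm.map Prod.fst) (by
        intro a ha b hb
        rw [List.mem_map] at ha hb
        obtain ⟨e₁, he₁, rfl⟩ := ha
        obtain ⟨e₂, he₂, rfl⟩ := hb
        exact ⟨_, graded_comm hcm (hV.root _ _ _ (hL e₁ he₁)).2.1
          (hV.root _ _ _ (hL e₂ he₂)).2.1⟩)
      have hee : (e.2.2 : K) ^ s * (e'.2.2 : K) ^ s = ((q : K) ^ s) ^ (w e.2.1) := by
        rw [← mul_pow, hgood.2, ← pow_mul, ← pow_mul, mul_comm]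
      have h3 : (L.map (fun e => (e.2.2 : K) ^ s)).prod = ((q : K) ^ s) ^ (w e.2.1) *
          (L'.map (fun e => (e.2.2 : K) ^ s)).prod := by
        rw [(hperm.map (fun e => (e.2.2 : K) ^ s)).prod_eq, List.map_cons, List.prod_cons,
          List.map_cons, List.prod_cons, ← mul_assoc, hee]
      obtain ⟨l, hkv, h5⟩ := ih L'.length (by omega) (c - w e.2.1) L' rfl
        (fun e₁ he₁ => hL e₁ (hperm.mem_iff.2
          (List.mem_cons_of_mem _ (List.mem_cons_of_mem _ he₁)))) (by
        have h6 : ((q : K) ^ s) ^ c = ((q : K) ^ s) ^ (w e.2.1) *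
            ((q : K) ^ s) ^ (c - w e.2.1) := zpow_split hQ0 c _
        rw [h3, h6, mul_assoc] at hrel
        exact mul_left_cancel₀ (pow_ne_zero _ hQ0) hrel)
      refine ⟨w e.2.1 + l, by rw [h3, hkv, pow_add], ?_⟩
      rw [hb']
      refine Submodule.smul_mem _ _ ?_
      rw [List.map_cons, List.prod_cons, List.map_cons, List.prod_cons, ← mul_assoc]
      have hpair : e.1 * e'.1 ∈ GK H W (w e.2.1) := by
        have key : ∀ (j : I) (x : K), V j x e'.1 → j = e.2.1 → V e.2.1 x e'.1 :=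
          fun j x h hj => hj ▸ h
        have hVe' : V e.2.1 (e'.2.2 : K) e'.1 := key _ _ (hL e' heL') hgood.1.symm
        exact hV.pair e.2.1 _ _ _ _ (hL e heL) hVe' hgood.2
      exact mul_mem_GK hpair h5

include hV hcm hq hf hno hs in
/-- **Existence of a good basis.** -/
theorem exists_good_basisV (hfin : Module.Finite K (H.A W)) (hπ : IsFrobenius C πW (q ^ s)) :
    ∃ (n : ℕ) (b : Basis (Fin n) K (H.A W)) (α : Fin n → K),
      (∀ t, H.pull πW (b t) = α t • b t) ∧
      (∀ t, ∃ (m : ℕ) (L : List (Lb K f)), α t = ((q ^ s : ℕ) : K) ^ m *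
        (L.map (fun y => (y.2 : K) ^ s)).prod) ∧
      ∀ (χ : ℚ[X]), χ ≠ 0 → RankLEOver E r {ρ : ℂ | aeval ρ χ = 0} → ∀ ρ : K, aeval ρ χ = 0 →
        ∀ t (c : ℤ), α t * ρ = ((q ^ s : ℕ) : K) ^ c →
          ∃ l : ℕ, α t = ((q ^ s : ℕ) : K) ^ l ∧ b t ∈ GK H W l := by
  obtain ⟨b₀, hb₀, hspan, hli⟩ := Submodule.exists_fun_fin_finrank_span_eq K (MonoV f V)
  have hspan' := hspan.trans (span_monoV hV)
  let b := Basis.mk hli (by rw [hspan'])
  have hbt : ∀ t, b t = b₀ t := fun t => by rw [Basis.mk_apply]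
  choose m a L ha hL hbL using hb₀
  have hQ : ((q ^ s : ℕ) : K) = (q : K) ^ s := by push_cast; rfl
  have hQ0 : (q : K) ^ s ≠ 0 := pow_ne_zero _ (by exact_mod_cast hq)
  refine ⟨_, b, fun t => ((q ^ s : ℕ) : K) ^ m t * ((L t).map (fun e => (e.2.2 : K) ^ s)).prod,
    fun t => ?_, fun t => ⟨m t, (L t).map Prod.snd, by rw [List.map_map]; rfl⟩, ?_⟩
  · rw [hbt, hbL, map_mul, GK_eigen hπ (ha t), list_eigenV hV (L t) (hL t), smul_mul_smul_comm]
  · intro χ hχ hrank ρ hρ t c hc
    obtain ⟨l, h1, h2⟩ := list_memV hV hcm hq hf hno hs hχ hrank hρ _ (c - m t)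
      (L t) rfl (hL t) (by
        rw [hQ] at hc
        rw [zpow_sub₀ hQ0, ← hc, zpow_natCast]
        field_simp)
    refine ⟨m t + l, by dsimp only; rw [h1, hQ, pow_add], ?_⟩
    rw [hbt, hbL]
    exact mul_mem_GK (ha t) h2

end Pool.Agent.T2h14.RG
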