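import Mathlib
import Pool.Agent.T2h14.RG.Lib
import Pool.Agent.W484.CK.NCTateMain
import Pool.Agent.Y154.BQ.Fin

/-!
# The Kunneth formula, for varieties whose cohomology is generated by root vectors
-/

set_option autoImplicit false
set_option linter.unusedSectionVars false

open CategoryTheory AlgebraicGeometry

universe u v w

namespace Pool.Agent.T2h14.RG

open Module Polynomial Pool.Agent.H914 Pool.Agent.H914.VarClass Pool.Agent.H914.VarClass.Obj
  Pool.Agent.W492.BB Pool.Agent.W550.Corr Pool.Agent.W484.TB Pool.Agent.W484.CH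
  Pool.Agent.T2h14.PW

variable {k : Type u} [Field k] {𝒱 : VarClass k} {C : TheoryData.{u, v, 0} 𝒱 ℚ} {K : Type w}
  [Field K] [CharZero K] {H : WeilTheoryData.{u, v, w} C K} [hC : IsChow C] [hH : IsWeil H]
  {W Z : 𝒱.Obj}

variable {I : Type} {q s : ℕ} {w : I → ℕ} {f : I → ℤ[X]} {πW : W ⟶ W} {πZ : Z ⟶ Z}
  {V : I → K → H.A W → Prop} {E : IntermediateField ℚ ℂ} {r : ℕ}
  (hV : IsRootSystem H πW q s w f V)
  (hS : IsStandard H) (hcm : PW.Stm.IsGradedCommutative H) (hq : 1 < q) (hm : ∀ i, (f i).Monic)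
  (hno : PW.Stm.NoRelations E q r w f) (hs : 0 < s) (hπ : IsFrobenius C πW (q ^ s))

include hV hS hcm hq hm hno hs hπ

/-- **The Kunneth formula for eigenvectors of Frobenius.** -/
theorem kunneth_eigen [IsAlgClosed K] (hZ : EigenRankLE E r (frob H πZ)) :
    ∃ (J : Type) (_ : Fintype J) (deg : J → ℕ) (D E : J → C.A W), Nonempty J ∧
      IsDual W Z deg D E ∧
      ∀ (i : ℤ) (w : H.A (W.prod Z)),
        H.pull (prodMap πW πZ) w = ((q ^ s : ℕ) : K) ^ i • w →
          H.act (H.cl (proj Z D E)) w = w := by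
  obtain ⟨n, b, α, hb, -, hgood⟩ := exists_good_basisV hV hcm (by omega : q ≠ 0)
    (fun i => (hm i).ne_zero) hno hs (hS.finite W) hπ
  have hQ1 : 1 < q ^ s := Nat.one_lt_pow hs.ne' hq
  have hX1 : (Polynomial.X - 1 : ℚ[X]) ≠ 0 := by
    have := Polynomial.X_sub_C_ne_zero (1 : ℚ)
    rwa [map_one] at this
  have h1 : ∀ t (c : ℤ), α t = ((q ^ s : ℕ) : K) ^ c →
      ∃ l : ℕ, α t = ((q ^ s : ℕ) : K) ^ l ∧ b t ∈ GK H W l := by
    intro t c hc
    exact hgood _ hX1 rank_one' 1 (by rw [map_sub, aeval_X, map_one, sub_self]) t c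
      (by rw [mul_one]; exact hc)
  obtain ⟨J, hJ, deg, D, E', hdual, hN⟩ := exists_dual hπ hQ1 b α hb h1 hS Z
  have hne : Nonempty J := by
    by_contra hne
    rw [not_nonempty_iff] at hne
    have h2 := hN 0 (one_mem_GK (H := H) (A := W))
    have h3 : {c : H.A W | ∃ j, deg j = 0 ∧ c = H.cl (D j)} = ∅ := by
      ext c
      constructor
      · rintro ⟨j, -⟩
        exact hne.elim j
      · intro h
        exact h.elim
    rw [h3, Submodule.span_empty, Submodule.mem_bot] at h2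
    have := hS.nontrivial W
    exact one_ne_zero h2
  refine ⟨J, hJ, deg, D, E', hne, hdual, fun i w hw => ?_⟩
  obtain ⟨χ, hχ, hχe, hrank⟩ := hZ
  have hmix : w ∈ mixG H W Z := by
    refine mem_mixG (πZ := πZ) hS b α hb (Q := q ^ s) (by omega) i ?_ 1 _ ?_
    · intro t ρ v hv0 hv hc
      obtain ⟨l, -, hl⟩ := hgood χ hχ hrank ρ (hχe ρ v hv0 hv) t i hc
      exact ⟨l, hl⟩
    · rw [op, pow_one, LinearMap.sub_apply, LinearMap.smul_apply, Module.End.one_apply, sub_eq_zero]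
      exact hw
  exact act_proj_mixG hdual hN hmix

/-- **The Kunneth formula.** -/
theorem kunneth_main [IsAlgClosed K] (hZ : EigenRankLE E r (frob H πZ))
    (hnil : Nilpotence H (W.prod Z)) :
    ∃ (J : Type) (_ : Fintype J) (deg : J → ℕ) (D E : J → C.A W), IsDual W Z deg D E ∧
      ∀ T : CorrData C, IsCorrTheory T → ActsAsPower T (prodMap πW πZ) (q ^ s) →
        ∀ (i : ℤ) (m : T.M (W.prod Z)), m ∈ T.gr (W.prod Z) i →
          m = ∑ j, T.act (extBy C Z (D j)) (T.act (pairBy C Z (E j)) m) := by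
  obtain ⟨n, b, α, hb, hα', hgood⟩ := exists_good_basisV hV hcm (by omega : q ≠ 0)
    (fun i => (hm i).ne_zero) hno hs (hS.finite W) hπ
  have hα : ∀ t, IsIntegral ℚ (α t) := by
    intro t
    obtain ⟨m, L, hL⟩ := hα' t
    rw [hL]
    refine IsIntegral.mul ?_ ?_
    · exact IsIntegral.pow (by
        have h1 : IsIntegral ℚ ((algebraMap ℚ K) ((q ^ s : ℕ) : ℚ)) := isIntegral_algebraMap
        rwa [map_natCast] at h1) m
    · clear hL
      induction L with
      | nil => simpa using isIntegral_one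
      | cons a L ih =>
        rw [List.map_cons, List.prod_cons]
        refine IsIntegral.mul ?_ ih
        have h1 : IsIntegral ℤ (a.2 : K) := ⟨f a.1, hm a.1, a.2.2⟩
        exact (h1.tower_top (A := ℚ)).pow s
  have hQ1 : 1 < q ^ s := Nat.one_lt_pow hs.ne' hq
  have hX1 : (Polynomial.X - 1 : ℚ[X]) ≠ 0 := by
    have := Polynomial.X_sub_C_ne_zero (1 : ℚ)
    rwa [map_one] at this
  have h1 : ∀ t (c : ℤ), α t = ((q ^ s : ℕ) : K) ^ c →
      ∃ l : ℕ, α t = ((q ^ s : ℕ) : K) ^ l ∧ b t ∈ GK H W l := by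
    intro t c hc
    exact hgood _ hX1 rank_one' 1 (by rw [map_sub, aeval_X, map_one, sub_self]) t c
      (by rw [mul_one]; exact hc)
  obtain ⟨J, hJ, deg, D, E', hdual, hN⟩ := exists_dual hπ hQ1 b α hb h1 hS Z
  refine ⟨J, hJ, deg, D, E', hdual, fun T hT hπ i m hm => ?_⟩
  obtain ⟨χ, hχ, hχe, hrank⟩ := hZ
  have hfinX : Module.Finite K (H.A (W.prod Z)) := hS.finite _
  obtain ⟨P, hP, m', hPm⟩ := exists_poly (frob H (prodMap πW πZ)) (((q ^ s : ℕ) : ℚ) ^ i) (by
    intro μ v hv0 hv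
    refine integral_eigen hS b α hb hα ?_ μ v hv0 hv
    intro ρ v hv0 hv
    exact (isAlgebraic_iff_isIntegral).1 ⟨χ, hχ, hχe ρ v hv0 hv⟩)
  refine kunneth_core hdual hT hπ hnil i P hP ?_ hm
  intro w
  apply act_proj_mixG hdual hN
  rw [act_cl_polyC]
  refine mem_mixG (πZ := πZ) hS b α hb (Q := q ^ s) (by omega) i ?_ m' _ ?_
  · intro t ρ v hv0 hv hc
    obtain ⟨l, -, hl⟩ := hgood χ hχ hrank ρ (hχe ρ v hv0 hv) t i hc
    exact ⟨l, hl⟩
  · have h2 := hPm w
    push_cast at h2 ⊢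
    exact h2

end Pool.Agent.T2h14.RG
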