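import Mathlib
import Pool.Agent.T2h14.RG.Fin
import Pool.Agent.T2h14.RG.CHStm

/-!
# The main theorems
-/

set_option autoImplicit false
set_option linter.unusedSectionVars false

open CategoryTheory AlgebraicGeometry

universe u v w

namespace Pool.Agent.T2h14.RG

open Module Polynomial Pool.Agent.H914 Pool.Agent.H914.VarClass Pool.Agent.H914.VarClass.Obj
  Pool.Agent.W492.BB Pool.Agent.W550.Corr Pool.Agent.W484.TB Pool.Agent.W484.CK Pool.Agent.W484
  Pool.Agent.Y154.BQ Pool.Agent.T2h14.PW

variable {I : Type} {q : ℕ} {w : I → ℕ} {f : I → ℤ[X]}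
  {E : IntermediateField ℚ ℂ} {r : ℕ} (hq : 1 < q) (hm : ∀ i, (f i).Monic)
  (hno : PW.Stm.NoRelations E q r w f)

include hq hm hno

/-- **The Chow groups.** -/
theorem pairingForGenerated_of : PairingForGenerated E q r w f := by
  intro k _ 𝒱 C _ K _ _ _ H _ s W Z πW πZ hsit hnil hbig
  obtain ⟨V, hV⟩ := hsit.generated
  have hS := isStandard_bridge hsit.standard
  have hπ := isFrobenius_bridge hsit.frobenius
  obtain ⟨J, hJ, deg, D, E', hdual, hK⟩ := RG.kunneth_main hV hS hsit.comm hq hm hno hsit.pos hπ
    (πZ := πZ) hsit.rank (nilpotence_bridge hnil)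
  have h1 : CH.HasKunneth (CH.chowData C) W Z deg D := CH.hasKunneth_of hdual
    CH.chowData_isCorrTheory (hK (CH.chowData C) CH.chowData_isCorrTheory
      (CH.chowData_actsAsPower (isFrobenius_bridge hsit.frobenius_prod)))
  refine ⟨⟨J, hJ, deg, D, hdual.left, fun i y hy => ?_⟩, fun n => ?_⟩
  · obtain ⟨z, ⟨hz1, hz2⟩, hz3⟩ := h1 i y hy
    have h2 : ∀ z' : J → C.A Z, ∑ j, times C (D j) (z' j) =
        ∑ j, (CH.chowData C).act (CH.extBy C Z (D j)) (z' j) := fun z' =>
      Finset.sum_congr rfl fun j _ => (CH.act_extBy C (D j) (z' j)).symm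
    refine ⟨z, ⟨hz1, ?_⟩, fun z' hz' => hz3 z' ⟨hz'.1, ?_⟩⟩
    · rw [h2 z]
      exact hz2
    · rw [← h2 z']
      exact hz'.2
  · -- every codimension occurs
    have hdeg : ∀ l : ℕ, l ≤ W.dim → ∃ j, deg j = l := by
      intro l hl
      by_contra hcon
      push Not at hcon
      obtain ⟨h, m, hh, hm0, hhm⟩ := hbig
      have hpow : ∀ l : ℕ, h ^ l ∈ C.gr W l := by
        intro l
        induction l with
        | zero => simpa using C.one_mem W
        | succ l ih =>
          rw [pow_succ]
          have h3 := C.mul_mem ih hh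
          push_cast
          exact h3
      have hzero : C.pull (fst W Z) (h ^ l) = 0 := by
        rw [CH.chow_expand hdual h1 (C.pull_mem (fst W Z) (hpow l))]
        refine Finset.sum_eq_zero fun j _ => ?_
        rw [← map_mul]
        have h3 : E' j * h ^ l ∈ C.gr W ((W.dim : ℤ) - deg j + l) :=
          C.mul_mem (hdual.right j) (hpow l)
        rcases lt_or_gt_of_ne (hcon j) with h2 | h2
        · rw [hS.chow_top W _ (by omega), Submodule.mem_bot] at h3
          rw [h3, map_zero, map_zero, C.ext_zero_right]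
        · have h4 := C.push_mem (snd W Z) (C.pull_mem (fst W Z) h3)
          have h5 : (W.dim : ℤ) - deg j + l + 1 * ((Z.dim : ℤ) - (W.prod Z).dim) = l - deg j := by
            rw [Obj.dim_prod]
            push_cast
            ring
          rw [h5, C.gr_neg Z _ (by omega), Submodule.mem_bot] at h4
          rw [h4, C.ext_zero_right]
      have htop : C.pull (fst W Z) (h ^ W.dim) = 0 := by
        rw [show W.dim = l + (W.dim - l) by omega, pow_add, map_mul, hzero, zero_mul]
      have htr : H.tr W (H.cl (h ^ W.dim)) = 0 := by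
        refine CH.tr_eq_zero_of_push Z ?_
        rw [← H.cl_pull, htop, map_zero, map_zero]
      obtain ⟨κ, hκ, h6⟩ := exists_kappa hS W
      rw [h6 _ m hhm] at htr
      rcases mul_eq_zero.1 htr with h7 | h7
      · exact hm0 (by exact_mod_cast h7)
      · exact hκ h7
    rw [perfectIn_prod_iff hS hdual h1 n]
    constructor
    · intro hp m hm1 hm2
      obtain ⟨l, hl⟩ := Int.eq_ofNat_of_zero_le (sub_nonneg.2 hm2)
      obtain ⟨j, hj⟩ := hdeg l (by omega)
      have h1 : n - (deg j : ℤ) = m := by rw [hj]; omega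
      rw [← h1]
      exact hp j
    · intro hp j
      have := hdual.le j
      exact hp _ (by omega) (by omega)

end Pool.Agent.T2h14.RG
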