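import Mathlib
import Pool.Agent.T2h14.RG.Lib
import Pool.Agent.W484.CK.Main

/-!
# Varieties whose cohomology is generated by root vectors: examples
-/

set_option autoImplicit false
set_option maxHeartbeats 400000
set_option linter.unusedSectionVars false

open CategoryTheory AlgebraicGeometry

universe u v w

namespace Pool.Agent.T2h14.RG

open Module Polynomial Pool.Agent.H914 Pool.Agent.H914.VarClass Pool.Agent.H914.VarClass.Obj
  Pool.Agent.W492.BB Pool.Agent.W550.Corr Pool.Agent.W484.CH Pool.Agent.W484.TB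
  Pool.Agent.W484.AA Pool.Agent.W484.BB Pool.Agent.T2h14.PW

variable {k : Type u} [Field k] {𝒱 : VarClass k} {C : TheoryData.{u, v, 0} 𝒱 ℚ} {K : Type w}
  [Field K] [CharZero K] {H : WeilTheoryData.{u, v, w} C K} [hC : IsChow C] [hH : IsWeil H]
  {W W' A : 𝒱.Obj} {I : Type} {q s : ℕ} {w : I → ℕ} {f : I → ℤ[X]} {πW : W ⟶ W}

omit [CharZero K] hC hH in
theorem rootProduct_list {V : I → K → H.A W → Prop} (L : List (H.A W))
    (hL : ∀ v ∈ L, ∃ i z, V i z v) :
    ∀ a : H.A W, IsRootProduct H V a → IsRootProduct H V (a * L.prod) := by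
  induction L with
  | nil => intro a ha; simpa using ha
  | cons v L ih =>
    intro a ha
    rw [List.prod_cons, ← mul_assoc]
    obtain ⟨i, z, hv⟩ := hL v (by simp)
    exact ih (fun v' hv' => hL v' (List.mem_cons_of_mem _ hv')) _ (IsRootProduct.mul a v i z ha hv)

/-! ### Products of varieties with simple Frobenius -/

section simple

variable {X : I → 𝒱.Obj} {π : ∀ i, X i ⟶ X i}
  (hX : ∀ i, PW.Stm.HasSimpleFrobenius H (π i) q s (w i) (f i)) (hS : IsStandard H)
  (hcm : PW.Stm.IsGradedCommutative H) (hq : q ≠ 0)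
  (hne : ∀ i (z : K), aeval z (f i) = 0 → ∀ n : ℕ, z ^ s ≠ ((q ^ s : ℕ) : K) ^ n)

include hX hS hcm hq hne in
theorem pair_mem' {v v' : H.A W} {y y' : Lb K f}
    (h : IsRG X π s w f πW v y) (h' : IsRG X π s w f πW v' y') (hi : y.1 = y'.1)
    (hyy : (y.2 : K) * y'.2 = (q : K) ^ w y.1) : v * v' ∈ GK H W (w y.1) := by
  obtain ⟨i, z, hz⟩ := y
  obtain ⟨i', z', hz'⟩ := y'
  dsimp only at hi
  subst hi
  obtain ⟨p, hp, c, hc, hcs, rfl⟩ := h
  obtain ⟨p', hp', c', hc', hcs', rfl⟩ := h'
  dsimp only at p hp c hc hcs p' hp' c' hc' hcs' hyy ⊢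
  have hm : w i = (X i).dim := (hX i).middle
  have h1 : H.ext c c' ∈ GK H ((X i).prod (X i)) (X i).dim := by
    refine ext_mem_GK hS hcm (Q := q ^ s) ⟨(hX i).frobenius.chow, (hX i).frobenius.degree⟩
      (pow_ne_zero _ hq) {β | ∃ z : K, aeval z (f i) = 0 ∧ β = z ^ s} ?_ ?_ ?_ (c := c') (c' := c)
      (α := z' ^ s) (α' := z ^ s) ⟨z', hz', rfl⟩ ?_ (by rw [← hm]; exact hc')
      (by rw [← hm]; exact hc) hcs' hcs
    · rintro β ⟨z, hz, rfl⟩ n hn
      exact hne i z hz n hn
    · rw [eq_top_iff]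
      intro c _
      refine Submodule.span_le.2 ?_ ((hX i).spanned c)
      rintro a (⟨n, z, hz, rfl⟩ | ⟨ha, z, hz, hza⟩)
      · exact Submodule.subset_span (Or.inl ⟨n, Submodule.subset_span ⟨z, hz, rfl⟩⟩)
      · exact Submodule.subset_span (Or.inr ⟨by rw [← hm]; exact ha, _, ⟨z, hz, rfl⟩, hza⟩)
    · rintro β ⟨z, hz, rfl⟩ a ha b hb hae hbe ha0
      rw [← hm] at ha hb
      exact (hX i).simple z a b hz ha hb hae hbe ha0
    · rw [← mul_pow, mul_comm z', hyy, hm]
      push_cast
      rw [← pow_mul, ← pow_mul, mul_comm]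
  have h2 : H.pull p c * H.pull p' c' = H.pull (Obj.lift p p') (H.ext c c') := by
    rw [TheoryData.ext, map_mul, ← H.pull_comp, ← H.pull_comp, lift_fst, lift_snd]
  rw [h2, hm]
  exact pull_mem_GK _ h1

include hX hS hcm hq hne in
/-- **Products of varieties with simple Frobenius.** -/
theorem isRootGenerated_product (hW : PW.Stm.IsProductOf X π W πW) :
    IsRootGenerated H πW q s w f := by
  refine ⟨fun i z v => ∃ hz : aeval z (f i) = 0, IsRG X π s w f πW v ⟨i, z, hz⟩, ?_, ?_, ?_⟩
  · rintro i z v ⟨hz, hv⟩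
    exact ⟨hz, isRG_mem hv, isRG_eigen hv⟩
  · intro c
    have h1 : c ∈ Submodule.span K (PW.Mono X π s w f H πW) := by
      rw [span_mono q hX hS hW]
      exact Submodule.mem_top
    refine Submodule.span_le.2 ?_ h1
    rintro _ ⟨n, a, L, ha, hL, rfl⟩
    unfold GK at ha
    change a * (L.map Prod.fst).prod ∈ Submodule.span K {a | IsRootProduct H _ a}
    induction ha using Submodule.span_induction with
    | mem a ha =>
      obtain ⟨D, hD, rfl⟩ := ha
      refine Submodule.subset_span (rootProduct_list _ ?_ _ (IsRootProduct.cycle _ ⟨n, D, hD, rfl⟩))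
      intro v hv
      obtain ⟨e, he, rfl⟩ := List.mem_map.1 hv
      exact ⟨e.2.1, e.2.2, e.2.2.2, hL e he⟩
    | zero => rw [zero_mul]; exact Submodule.zero_mem _
    | add x y _ _ hx hy => rw [add_mul]; exact Submodule.add_mem _ hx hy
    | smul c x _ hx => rw [smul_mul_assoc]; exact Submodule.smul_mem _ _ hx
  · rintro i z z' v v' ⟨hz, hv⟩ ⟨hz', hv'⟩ hzz
    have h1 : v * v' ∈ GK H W (w i) :=
      pair_mem' (y := ⟨i, z, hz⟩) (y' := ⟨i, z', hz'⟩) hX hS hcm hq hne hv hv' rfl hzz
    exact h1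

end simple

/-! ### Abelian varieties -/

omit [CharZero K] in
/-- **Abelian varieties.** -/
theorem isRootGenerated_abelian {π : A ⟶ A} (h : Pool.Agent.W484.CK.IsAbelian H π q s f) :
    IsRootGenerated H π q s (fun _ => 1) f := by
  classical
  let R : Set (H.A A) := {v | H.Deg 1 v ∧ ∃ i, ∃ z : K, aeval z (f i) = 0 ∧ H.up π v = z ^ s • v}
  refine ⟨fun i z v => aeval z (f i) = 0 ∧ H.Deg 1 v ∧ H.up π v = z ^ s • v, ?_, ?_, ?_⟩
  · rintro i z v ⟨h1, h2, h3⟩
    exact ⟨h1, by exact_mod_cast h2, h3⟩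
  · intro c
    have h1 : c ∈ Algebra.adjoin K R := by
      refine h.generated (Algebra.adjoin K R) ?_ c
      intro a ha
      have h2 : a ∈ Submodule.span K R := h.spanned a ha
      exact Algebra.span_le_adjoin K R h2
    have h2 : c ∈ Submodule.span K (Submonoid.closure R : Set (H.A A)) := by
      rw [← Algebra.adjoin_eq_span]
      exact h1
    refine Submodule.span_mono ?_ h2
    intro a ha
    induction ha using Submonoid.closure_induction_right with
    | one => exact IsRootProduct.cycle 1 ⟨0, 1, by exact_mod_cast C.one_mem A, (map_one H.cl).symm⟩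
    | mul_right x _ y hy ih =>
      obtain ⟨h3, i, z, hz, h4⟩ := hy
      exact IsRootProduct.mul x y i z ih ⟨hz, h3, h4⟩
  · rintro i z z' v v' ⟨hz, hv, hvs⟩ ⟨hz', hv', hvs'⟩ hzz
    have h1 : H.Deg 2 (H.mul v v') := by
      have h2 := H.mul_mem hv hv'
      exact h2
    have h2 : H.up π (H.mul v v') = ((q ^ s : ℕ) : K) • H.mul v v' := by
      have h3 : H.up π (H.mul v v') = H.up π v * H.up π v' := map_mul (H.pull π) v v'
      rw [h3, hvs, hvs', smul_mul_smul_comm, ← mul_pow, hzz, pow_one]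
      push_cast
      rfl
    have h3 := h.tate _ h1 h2
    refine Submodule.span_mono ?_ h3
    rintro _ ⟨D, hD, rfl⟩
    exact ⟨D, by exact_mod_cast hD, rfl⟩

/-! ### External products -/

section prod

variable {I' : Type} {w' : I' → ℕ} {f' : I' → ℤ[X]} {πW' : W' ⟶ W'}
  {V : I → K → H.A W → Prop} {V' : I' → K → H.A W' → Prop}

/-- The root vectors of a product. -/
def prodV (V : I → K → H.A W → Prop) (V' : I' → K → H.A W' → Prop) :
    I ⊕ I' → K → H.A (W.prod W') → Prop
  | Sum.inl i, z, v => ∃ v₀, V i z v₀ ∧ v = H.pull (fst W W') v₀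
  | Sum.inr j, z, v => ∃ v₀, V' j z v₀ ∧ v = H.pull (snd W W') v₀

omit [CharZero K] in
theorem rootProduct_cycle {V : I → K → H.A W → Prop} {a c : H.A W} (ha : IsRootProduct H V a)
    (hc : PW.Stm.IsCycleClass H c) : IsRootProduct H V (a * c) := by
  induction ha with
  | cycle a ha =>
    obtain ⟨i, z, hz, rfl⟩ := ha
    obtain ⟨i', z', hz', rfl⟩ := hc
    refine IsRootProduct.cycle _ ⟨i + i', z * z', ?_, (map_mul H.cl z z').symm⟩
    have := C.mul_mem hz hz'
    push_cast
    exact this
  | mul a v i z _ hv ih =>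
    have h1 : H.mul a v * c = H.mul (a * c) v := by
      obtain ⟨i', z', hz', rfl⟩ := hc
      change a * v * H.cl z' = a * H.cl z' * v
      rw [mul_assoc, mul_assoc, H.cl_central]
    rw [h1]
    exact IsRootProduct.mul _ v i z ih hv

omit [CharZero K] in
theorem rootProduct_ext {a : H.A W} {a' : H.A W'} (ha : IsRootProduct H V a)
    (ha' : IsRootProduct H V' a') :
    IsRootProduct H (prodV V V') (H.pull (fst W W') a * H.pull (snd W W') a') := by
  have h1 : IsRootProduct H (prodV V V') (H.pull (fst W W') a) := by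
    clear ha'
    induction ha with
    | cycle a ha =>
      obtain ⟨i, z, hz, rfl⟩ := ha
      exact IsRootProduct.cycle _ ⟨i, C.pull (fst W W') z, C.pull_mem _ hz, (H.cl_pull _ z).symm⟩
    | mul a v i z _ hv ih =>
      have h2 : H.pull (fst W W') (H.mul a v) = H.mul (H.pull (fst W W') a)
          (H.pull (fst W W') v) := map_mul _ _ _
      rw [h2]
      exact IsRootProduct.mul _ _ (Sum.inl i) z ih ⟨v, hv, rfl⟩
  induction ha' with
  | cycle a' ha' =>
    obtain ⟨i, z, hz, rfl⟩ := ha'
    exact rootProduct_cycle h1 ⟨i, C.pull (snd W W') z, C.pull_mem _ hz, (H.cl_pull _ z).symm⟩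
  | mul a' v i z _ hv ih =>
    have h2 : H.pull (fst W W') a * H.pull (snd W W') (H.mul a' v) =
        H.mul (H.pull (fst W W') a * H.pull (snd W W') a') (H.pull (snd W W') v) := by
      change _ * H.pull (snd W W') (a' * v) = _ * _ * _
      rw [map_mul, mul_assoc]
    rw [h2]
    exact IsRootProduct.mul _ _ (Sum.inr i) z ih ⟨v, hv, rfl⟩

omit [CharZero K] in
/-- **External products.** -/
theorem isRootGenerated_prod (hS : IsStandard H) (h : IsRootGenerated H πW q s w f)
    (h' : IsRootGenerated H πW' q s w' f') :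
    IsRootGenerated H (prodMap πW πW') q s (Sum.elim w w') (Sum.elim f f') := by
  obtain ⟨V, hV⟩ := h
  obtain ⟨V', hV'⟩ := h'
  refine ⟨prodV V V', ?_, ?_, ?_⟩
  · rintro (i | j) z v ⟨v₀, hv, rfl⟩
    · obtain ⟨h1, h2, h3⟩ := hV.root i z v₀ hv
      refine ⟨h1, H.pull_mem _ h2, ?_⟩
      change H.pull (prodMap πW πW') (H.pull (fst W W') v₀) = z ^ s • H.pull (fst W W') v₀
      rw [← H.pull_comp, prodMap_fst, H.pull_comp, ← map_smul]
      exact congrArg _ h3
    · obtain ⟨h1, h2, h3⟩ := hV'.root j z v₀ hv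
      refine ⟨h1, H.pull_mem _ h2, ?_⟩
      change H.pull (prodMap πW πW') (H.pull (snd W W') v₀) = z ^ s • H.pull (snd W W') v₀
      rw [← H.pull_comp, prodMap_snd, H.pull_comp, ← map_smul]
      exact congrArg _ h3
  · intro c
    have := hS.finite W
    obtain ⟨g, rfl⟩ := kunneth_exists (finBasis K (H.A W)) c
    refine Submodule.sum_mem _ fun t _ => ?_
    have key : ∀ (x : H.A W) (y : H.A W'), x ∈ Submodule.span K {a | IsRootProduct H V a} →
        y ∈ Submodule.span K {a | IsRootProduct H V' a} →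
        H.pull (fst W W') x * H.pull (snd W W') y ∈
          Submodule.span K {a | IsRootProduct H (prodV V V') a} := ?_
    · exact key _ _ (hV.spanned (finBasis K (H.A W) t)) (hV'.spanned (g t))
    intro x y h1 h2
    induction h1 using Submodule.span_induction with
    | mem a ha =>
      induction h2 using Submodule.span_induction with
      | mem b hb => exact Submodule.subset_span (rootProduct_ext ha hb)
      | zero => rw [map_zero, mul_zero]; exact Submodule.zero_mem _
      | add x y _ _ hx hy => rw [map_add, mul_add]; exact Submodule.add_mem _ hx hy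
      | smul c x _ hx => rw [map_smul, mul_smul_comm]; exact Submodule.smul_mem _ _ hx
    | zero => rw [map_zero, zero_mul]; exact Submodule.zero_mem _
    | add x y _ _ hx hy => rw [map_add, add_mul]; exact Submodule.add_mem _ hx hy
    | smul c x _ hx => rw [map_smul, smul_mul_assoc]; exact Submodule.smul_mem _ _ hx
  · rintro (i | j) z z' v v' ⟨v₀, hv, rfl⟩ ⟨v₁, hv', rfl⟩ hzz
    · have h1 := hV.pair i z z' v₀ v₁ hv hv' hzz
      have h2 : H.mul (H.pull (fst W W') v₀) (H.pull (fst W W') v₁) =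
          H.pull (fst W W') (v₀ * v₁) := (map_mul _ _ _).symm
      rw [h2]
      exact pull_mem_GK (fst W W') h1
    · have h1 := hV'.pair j z z' v₀ v₁ hv hv' hzz
      have h2 : H.mul (H.pull (snd W W') v₀) (H.pull (snd W W') v₁) =
          H.pull (snd W W') (v₀ * v₁) := (map_mul _ _ _).symm
      rw [h2]
      exact pull_mem_GK (snd W W') h1

end prod

end Pool.Agent.T2h14.RG
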