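import Mathlib
import Pool.Agent.T2h14.PW.Stm

/-!
# Products of abelian varieties and of varieties with simple Frobenius: statements
-/

set_option autoImplicit false

open CategoryTheory AlgebraicGeometry

universe u v w

namespace Pool.Agent.T2h14.RG

open Polynomial Pool.Agent.H914 Pool.Agent.H914.VarClass Pool.Agent.H914.VarClass.Obj
  Pool.Agent.W492.BB Pool.Agent.W484.CK Pool.Agent.Y154.BQ Pool.Agent.T2h14.PW.Stm

variable {k : Type u} [Field k] {𝒱 : VarClass k} {C : TheoryData.{u, v, 0} 𝒱 ℚ} {K : Type w}
  [Field K] (H : WeilTheoryData.{u, v, w} C K) {W Z : 𝒱.Obj}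

/-- `W` is a product of varieties `X i`, `i ∉ T`, with simple Frobenius in the middle degree `w i` and
with polynomials `f i`. -/
def IsSimpleProduct (q s : ℕ) {I : Type} (w : I → ℕ) (f : I → ℤ[X]) (T : Set I) (πW : W ⟶ W) :
    Prop :=
  ∃ (X : {i // i ∉ T} → 𝒱.Obj) (π : ∀ i, X i ⟶ X i),
    (∀ i, HasSimpleFrobenius H (π i) q s (w i) (f i)) ∧ IsProductOf X π W πW

/-- `W` is an abelian variety with polynomials `f i`, `i ∈ T`; or a product of varieties `X i`,
`i ∉ T`, with simple Frobenius; or the product of an abelian variety and such a product. -/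
inductive IsMixed (q s : ℕ) {I : Type} (w : I → ℕ) (f : I → ℤ[X]) (T : Set I) :
    (W : 𝒱.Obj) → (W ⟶ W) → Prop
  | abelian (A : 𝒱.Obj) (πA : A ⟶ A) : IsAbelian H πA q s (fun i : T => f i) →
      IsMixed q s w f T A πA
  | simple (W : 𝒱.Obj) (πW : W ⟶ W) : IsSimpleProduct H q s w f T πW → IsMixed q s w f T W πW
  | prod (A W : 𝒱.Obj) (πA : A ⟶ A) (πW : W ⟶ W) : IsAbelian H πA q s (fun i : T => f i) →
      IsSimpleProduct H q s w f T πW → IsMixed q s w f T (A.prod W) (prodMap πA πW)

/-- The situation of the theorems: `W` is a variety over the field with `q ^ s` elements as in `IsMixed`,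
where the weights `w i`, `i ∈ T`, of the polynomials of the abelian variety are one; `πW` is its
Frobenius endomorphism; `Z` is **any** variety such that the eigenvalues of its Frobenius endomorphism
`πZ` on the cohomology lie up to powers in a group generated by the elements of the field `E` and `r`
numbers; and `πW × πZ` acts on the Chow groups of `W × Z` in the usual way. -/
structure IsMixedSituation [CharZero K] (E : IntermediateField ℚ ℂ) (q r s : ℕ) {I : Type}
    (w : I → ℕ) (f : I → ℤ[X]) (πW : W ⟶ W) (πZ : Z ⟶ Z) : Prop where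
  standard : IsStandard H
  comm : IsGradedCommutative H
  pos : 0 < s
  mixed : ∃ T : Set I, (∀ i ∈ T, w i = 1) ∧ IsMixed H q s w f T W πW
  frobenius : IsFrobenius C πW (q ^ s)
  rank : EigenvaluesOfRank H E r πZ
  frobenius_prod : IsFrobenius C (prodMap πW πZ) (q ^ s)

/-- `PairingForMixed E q r w f`: the following holds for the Chow groups `C` with rational
coefficients of all classes `𝒱` of varieties over fields `k` (finite, in the intended use), every
Weil cohomology theory `H` with coefficients in an algebraically closed field `K` of characteristic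
zero and all `W`, `Z` as in `IsMixedSituation`, where `W` is projective and the homologically trivial
self-correspondences of `W × Z` of degree zero are nilpotent: the Kunneth formula holds for the Chow
groups of `W × Z`, and for every `n` the pairing
`CH^n(W × Z)_ℝ × CH^(dim W + dim Z - n)(W × Z)_ℝ → ℝ` is perfect if and only if the pairings
`CH^m(Z)_ℝ × CH^(dim Z - m)(Z)_ℝ → ℝ` with `n - dim W ≤ m ≤ n` are perfect. -/
def PairingForMixed (E : IntermediateField ℚ ℂ) (q r : ℕ) {I : Type} (w : I → ℕ)
    (f : I → ℤ[X]) : Prop :=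
  ∀ (k : Type) [Field k] (𝒱 : VarClass k) (C : TheoryData.{0, 0, 0} 𝒱 ℚ) [IsChow C]
    (K : Type) [Field K] [IsAlgClosed K] [CharZero K] (H : WeilTheoryData.{0, 0, 0} C K)
    [IsWeil H] (s : ℕ) (W Z : 𝒱.Obj) (πW : W ⟶ W) (πZ : Z ⟶ Z),
      IsMixedSituation H E q r s w f πW πZ → Nilpotence H (W.prod Z) → HasBigDivisor C W →
        PW.Stm.ChowKunneth C W Z ∧ PairingsReduce C W Z

end Pool.Agent.T2h14.RG
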