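import Mathlib
import Pool.Agent.T2h14.RG.MixStm
import Pool.Agent.T2h14.RG.Mem
import Pool.Agent.T2h14.RG.CHMain

/-!
# Products of abelian varieties and of varieties with simple Frobenius
-/

set_option autoImplicit false
set_option maxHeartbeats 400000

open CategoryTheory AlgebraicGeometry

universe u v w

namespace Pool.Agent.T2h14.RG

open Module Polynomial Pool.Agent.H914 Pool.Agent.H914.VarClass Pool.Agent.H914.VarClass.Obj
  Pool.Agent.W492.BB Pool.Agent.W550.Corr Pool.Agent.W484.TB Pool.Agent.W484.CK Pool.Agent.W484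
  Pool.Agent.Y154.BQ Pool.Agent.T2h14.PW

variable {k : Type u} [Field k] {𝒱 : VarClass k} {C : TheoryData.{u, v, 0} 𝒱 ℚ} {K : Type w}
  [Field K] {H : WeilTheoryData.{u, v, w} C K} {W : 𝒱.Obj} {q s : ℕ} {πW : W ⟶ W}

theorem rootProduct_mono {I I' : Type} {V : I → K → H.A W → Prop} {V' : I' → K → H.A W → Prop}
    (h : ∀ i z v, V' i z v → ∃ j, V j z v) {a : H.A W} (ha : IsRootProduct H V' a) :
    IsRootProduct H V a := by
  induction ha with
  | cycle a ha => exact IsRootProduct.cycle a ha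
  | mul a v i z _ hv ih =>
    obtain ⟨j, hj⟩ := h i z v hv
    exact IsRootProduct.mul a v j z ih hj

/-- Reindexing. -/
theorem isRootGenerated_reindex {I I' : Type} {w : I → ℕ} {f : I → ℤ[X]} {w' : I' → ℕ}
    {f' : I' → ℤ[X]} (φ : I' → I) (hφ : Function.Injective φ) (hw : ∀ i, w' i = w (φ i))
    (hf : ∀ i, f' i = f (φ i)) (h : IsRootGenerated H πW q s w' f') :
    IsRootGenerated H πW q s w f := by
  obtain ⟨V, hV⟩ := h
  refine ⟨fun i z v => ∃ j, φ j = i ∧ V j z v, ?_, ?_, ?_⟩
  · rintro i z v ⟨j, rfl, hv⟩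
    have h1 := hV.root j z v hv
    rw [hf, hw] at h1
    exact h1
  · intro c
    exact Submodule.span_mono (fun a ha => rootProduct_mono (fun i z v hv => ⟨φ i, i, rfl, hv⟩) ha)
      (hV.spanned c)
  · rintro i z z' v v' ⟨j, rfl, hv⟩ ⟨j', hj', hv'⟩ hzz
    obtain rfl := hφ hj'
    have h1 := hV.pair j' z z' v v' hv hv'
    rw [hw] at h1
    exact h1 hzz

/-- The mixed products are generated by root vectors. -/
theorem isRootGenerated_mixed [CharZero K] [hC : IsChow C] [hH : IsWeil H] {I : Type} {w : I → ℕ}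
    {f : I → ℤ[X]} {T : Set I} (hT : ∀ i ∈ T, w i = 1) (hS : CH.IsStandard H)
    (hcm : PW.Stm.IsGradedCommutative H) (hq : q ≠ 0)
    (hne : ∀ i (z : K), aeval z (f i) = 0 → ∀ n : ℕ, z ^ s ≠ ((q ^ s : ℕ) : K) ^ n)
    (h : IsMixed H q s w f T W πW) : IsRootGenerated H πW q s w f := by
  have hab : ∀ (A : 𝒱.Obj) (πA : A ⟶ A), IsAbelian H πA q s (fun i : T => f i) →
      IsRootGenerated H πA q s (fun _ : T => 1) (fun i : T => f i) :=
    fun A πA hA => isRootGenerated_abelian hA
  have hsi : ∀ (W : 𝒱.Obj) (πW : W ⟶ W), IsSimpleProduct H q s w f T πW →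
      IsRootGenerated H πW q s (fun i : {i // i ∉ T} => w i) (fun i : {i // i ∉ T} => f i) := by
    rintro W πW ⟨X, π, hX, hW⟩
    exact isRootGenerated_product hX hS hcm hq (fun i z hz n => hne i z hz n) hW
  cases h with
  | abelian _ _ hA =>
    exact isRootGenerated_reindex (fun i : T => (i : I)) Subtype.val_injective
      (fun i => (hT i i.2).symm) (fun _ => rfl) (hab _ _ hA)
  | simple _ _ hW =>
    exact isRootGenerated_reindex (fun i : {i // i ∉ T} => (i : I)) Subtype.val_injective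
      (fun _ => rfl) (fun _ => rfl) (hsi _ _ hW)
  | prod A W₀ πA π₀ hA hW =>
    have h1 := isRootGenerated_prod hS (hab _ _ hA) (hsi _ _ hW)
    refine isRootGenerated_reindex (Sum.elim (fun i : T => (i : I)) (fun i : {i // i ∉ T} => (i : I)))
      ?_ ?_ ?_ h1
    · rintro (i | i) (j | j) hij
      · exact congrArg Sum.inl (Subtype.ext hij)
      · exact (j.2 ((show (i : I) = (j : I) from hij) ▸ i.2)).elim
      · exact (i.2 ((show (j : I) = (i : I) from hij.symm) ▸ j.2)).elim
      · exact congrArg Sum.inr (Subtype.ext hij)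
    · rintro (i | i)
      · exact (hT i i.2).symm
      · rfl
    · rintro (i | i)
      · rfl
      · rfl

/-- The situations. -/
theorem situation_of_mixed [CharZero K] [hC : IsChow C] [hH : IsWeil H] {I : Type} {w : I → ℕ}
    {f : I → ℤ[X]} {Z : 𝒱.Obj} {πZ : Z ⟶ Z} {E : IntermediateField ℚ ℂ} {r : ℕ} (hq : q ≠ 0)
    (hf : ∀ i, f i ≠ 0) (hno : PW.Stm.NoRelations E q r w f)
    (h : IsMixedSituation H E q r s w f πW πZ) : RG.IsSituation H E q r s w f πW πZ where
  standard := h.standard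
  comm := h.comm
  pos := h.pos
  generated := by
    obtain ⟨T, hT, hM⟩ := h.mixed
    refine isRootGenerated_mixed hT (isStandard_bridge h.standard) h.comm hq ?_ hM
    intro i z hz n hzn
    refine PW.root_ne (E := E) q hf hno h.pos (⟨i, z, hz⟩ : Lb K f) (n : ℤ) ?_
    rw [zpow_natCast, hzn]
    push_cast
    rfl
  frobenius := h.frobenius
  rank := h.rank
  frobenius_prod := h.frobenius_prod

/-- **The Chow groups of mixed products.** -/
theorem pairingForMixed_of {I : Type} {q : ℕ} {w : I → ℕ} {f : I → ℤ[X]}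
    {E : IntermediateField ℚ ℂ} {r : ℕ} (hq : 1 < q) (hm : ∀ i, (f i).Monic)
    (hno : PW.Stm.NoRelations E q r w f) : PairingForMixed E q r w f := by
  intro k _ 𝒱 C _ K _ _ _ H _ s W Z πW πZ hsit hnil hbig
  exact pairingForGenerated_of hq hm hno k 𝒱 C K H s W Z πW πZ
    (situation_of_mixed (by omega) (fun i => (hm i).ne_zero) hno hsit) hnil hbig

end Pool.Agent.T2h14.RG
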