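import Mathlib
import Pool.Agent.T2h14.NR.Stm
import Pool.Agent.T2h14.HT.Def

/-!
# Weil polynomials of Hodge type, explicit families
-/

set_option autoImplicit false

namespace Pool.Agent.T2h14.RG

open Polynomial Pool.Agent.T2h14.NR.Stm Pool.Agent.T2h14.HT

/-- The Weil polynomials: `f` of degree `2 g` with integral coefficients, leading coefficient one and
constant term `q ^ g`, all of whose complex roots have absolute value `√q`. -/
def weilPolys (q g : ℕ) : Set ℤ[X] :=
  {f | f.Monic ∧ f.natDegree = 2 * g ∧ f.coeff 0 = (q : ℤ) ^ g ∧
    ∀ z : ℂ, aeval z f = 0 → ‖z‖ ^ 2 = q}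

/-- The polynomials of degree `2 g` which satisfy the conditions of Weil and of Mazur for the Hodge
numbers `h` of weight `w` over the field with `q` elements: monic integral polynomials with constant
term `(q ^ w) ^ g`, all of whose complex roots have absolute value `q ^ (w / 2)` (`weilPolys`), and
whose Newton polygon with respect to `q` lies above the Hodge polygon: the coefficient of
`X ^ (2 g - k)` is divisible by `q ^ HP(k)` for `k ≤ g` (by the functional equation this is then true
for all `k`). -/
def weilPolysOfType (q w g : ℕ) (h : ℕ → ℕ) : Set ℤ[X] :=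
  {f ∈ weilPolys (q ^ w) g | ∀ k ≤ g, ((q : ℤ) ^ hodgePolygon w h k) ∣ f.coeff (2 * g - k)}

/-- Explicit families `f i` of polynomials without relations. Let `M > 0` be a common multiple of the
weights, `M = e i * w i`, and `F i` the characteristic polynomials of Frobenius over the fields with
`q ^ (e i)` elements: a Weil polynomial of degree `2 g i` over the field with `q ^ M` elements, which
vanishes at the powers `z ^ (e i)` of the roots `z` of `f i`, where `f i` is monic of the same degree. The
`F i` are irreducible over `ℚ`, not supersingular, and have pairwise different splitting fields, none of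
which is contained in `E`; for each `i` either `g i` is an odd prime number and the fields generated by
the roots of `F i` contain no imaginary quadratic field, or the representation of the odd functions on
the roots of `F i` is irreducible; and `r < g i`. -/
def ExplicitFamily (E : IntermediateField ℚ ℂ) (q r : ℕ) {I : Type} (w : I → ℕ)
    (f : I → ℤ[X]) : Prop :=
  ∃ (M : ℕ) (e g : I → ℕ) (F : I → ℤ[X]), 0 < M ∧ ∀ i,
    e i * w i = M ∧ F i ∈ weilPolys (q ^ M) (g i) ∧
    Irreducible ((F i).map (Int.castRingHom ℚ)) ∧ NotSupersingular (q ^ M) (F i) ∧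
    (((g i).Prime ∧ g i ≠ 2 ∧ NoImaginaryQuadratic (F i)) ∨ IrreducibleOdd (q ^ M) (F i)) ∧
    (∀ j, i ≠ j → splitField (F i) ≠ splitField (F j)) ∧ ¬ splitField (F i) ≤ E ∧ r < g i ∧
    (f i).natDegree = 2 * g i ∧ ∀ z : ℂ, aeval z (f i) = 0 → aeval (z ^ e i) (F i) = 0

end Pool.Agent.T2h14.RG
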