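import Mathlib
import Pool.Agent.T2h14.RG.Def
import Pool.Agent.T2h14.HT.Gen
import Pool.Agent.T2h14.PW.Expl

/-!
# Almost all Weil polynomials of every Hodge type, and the explicit families
-/

set_option autoImplicit false

namespace Pool.Agent.T2h14.RG

open Polynomial Pool.Agent.T2h14.PW.Stm Pool.Agent.T2h14.HT

theorem weilPolysOfType_eq : @weilPolysOfType = @hodgeWeilPolys := rfl

theorem explicitFamily_iff {E : IntermediateField ℚ ℂ} {q r : ℕ} {I : Type} {w : I → ℕ}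
    {f : I → ℤ[X]} : RG.ExplicitFamily E q r w f ↔ PW.Stm.ExplicitFamily E q r w f := Iff.rfl

/-- The explicit families. -/
theorem explicit {I : Type} [Fintype I] {q : ℕ} (hq : 1 < q) {w : I → ℕ} {f : I → ℤ[X]}
    (hf : ∀ i, (f i).Monic) {E : IntermediateField ℚ ℂ} {r : ℕ} [Normal ℚ E]
    (h : RG.ExplicitFamily E q r w f) : NoRelations E q r w f :=
  Pool.Agent.T2h14.PW.explicitFamily hq hf (explicitFamily_iff.1 h)

/-- The count of the exceptions, for a consequence `P` of `NoRelations`. -/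
theorem count {I : Type} [Fintype I] (w g : I → ℕ) (m r : ℕ) (h : I → ℕ → ℕ) (hm : 0 < m)
    (hr : ∀ i, r < g i) (hh : ∀ i, HodgeNumbers (w i) (g i) m (h i)) (E : IntermediateField ℚ ℂ)
    [FiniteDimensional ℚ E] (P : ℕ → (I → ℤ[X]) → Prop)
    (hP : ∀ q, 1 < q → ∀ f : I → ℤ[X], (∀ i, (f i).Monic) → NoRelations E q r w f → P q f) :
    ∃ C c : ℝ, 0 < c ∧ ∀ q : ℕ, IsPrimePow q →
      (∀ i, (weilPolysOfType q (w i) (g i) (h i)).Finite ∧
        c * hodgeSize q (w i) (g i) (h i) ≤ (weilPolysOfType q (w i) (g i) (h i)).ncard ∧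
        ((weilPolysOfType q (w i) (g i) (h i)).ncard : ℝ) ≤ C * hodgeSize q (w i) (g i) (h i)) ∧
      ({f : I → ℤ[X] | (∀ i, f i ∈ weilPolysOfType q (w i) (g i) (h i)) ∧
        ¬ (NoRelations E q r w f ∧ P q f)}.ncard : ℝ) ≤
        C * (Real.log q * (q : ℝ) ^ (-((m : ℝ) / 6))) *
          ∏ i, ((weilPolysOfType q (w i) (g i) (h i)).ncard : ℝ) := by
  rw [weilPolysOfType_eq]
  exact mainP w g m r h hm hr hh E P hP

end Pool.Agent.T2h14.RG
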