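import Mathlib
import Pool.Agent.T2h14.RG.Count

/-!
# Explicit families of Weil polynomials of twice prime degree
-/

set_option autoImplicit false

namespace Pool.Agent.T2h14.RG

open Polynomial Pool.Agent.T2h14.NR.Stm Pool.Agent.T2h14.HT

/-- Explicit families `f i` of polynomials without relations. Let `M > 0` be a common multiple of the
weights, `M = e i * w i`, and `F i` the characteristic polynomials of Frobenius over the fields with
`q ^ (e i)` elements: a Weil polynomial of degree `2 g i` over the field with `q ^ M` elements, which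
vanishes at the powers `z ^ (e i)` of the roots `z` of `f i`, where `f i` is monic of the same degree. The
`F i` are irreducible over `ℚ`, not supersingular, and have pairwise different splitting fields, none of
which is contained in `E`; the `g i` are odd prime numbers, larger than `r`, and the fields generated
by the roots of `F i` contain no imaginary quadratic field. -/
def PrimeFamily (E : IntermediateField ℚ ℂ) (q r : ℕ) {I : Type} (w : I → ℕ) (f : I → ℤ[X]) : Prop :=
  ∃ (M : ℕ) (e g : I → ℕ) (F : I → ℤ[X]), 0 < M ∧ ∀ i,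
    e i * w i = M ∧ F i ∈ weilPolys (q ^ M) (g i) ∧
    Irreducible ((F i).map (Int.castRingHom ℚ)) ∧ NotSupersingular (q ^ M) (F i) ∧
    (g i).Prime ∧ g i ≠ 2 ∧ r < g i ∧ NoImaginaryQuadratic (F i) ∧
    (∀ j, i ≠ j → splitField (F i) ≠ splitField (F j)) ∧ ¬ splitField (F i) ≤ E ∧
    (f i).natDegree = 2 * g i ∧ ∀ z : ℂ, aeval z (f i) = 0 → aeval (z ^ e i) (F i) = 0

theorem primeFamily {I : Type} [Fintype I] {q : ℕ} (hq : 1 < q) {w : I → ℕ} {f : I → ℤ[X]}
    (hf : ∀ i, (f i).Monic) {E : IntermediateField ℚ ℂ} {r : ℕ} [Normal ℚ E]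
    (h : PrimeFamily E q r w f) : Pool.Agent.T2h14.PW.Stm.NoRelations E q r w f := by
  obtain ⟨M, e, g, F, hM, H⟩ := h
  refine explicit hq hf ⟨M, e, g, F, hM, fun i => ?_⟩
  obtain ⟨h1, h2, h3, h4, h5, h6, h7, h8, h9, h10, h11, h12⟩ := H i
  exact ⟨h1, h2, h3, h4, Or.inl ⟨h5, h6, h8⟩, h9, h10, h7, h11, h12⟩

end Pool.Agent.T2h14.RG
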