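import Mathlib
import Pool.Agent.T2h14.RG.MixStm
import Pool.Agent.T2h14.UC.Stm

/-!
# Unramified cohomology of products of abelian varieties and varieties with simple Frobenius
-/

set_option autoImplicit false

open CategoryTheory AlgebraicGeometry

namespace Pool.Agent.T2h14.RG

open Polynomial Pool.Agent.H914 Pool.Agent.H914.VarClass Pool.Agent.H914.VarClass.Obj
  Pool.Agent.W492.BB Pool.Agent.W484.CK Pool.Agent.T2h14.PW.Stm Pool.Agent.T2h14.UC

/-- `UnramifiedForMixed E q r w f`: the following holds for the Chow groups `C` with rational
coefficients of all classes `𝒱` of varieties over fields `k` (finite, in the intended use), every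
Weil cohomology theory `H` with coefficients in an algebraically closed field `K` of characteristic
zero, and all varieties `W` over the field with `q ^ s` elements, `s > 0`, which are abelian varieties,
products of varieties with simple Frobenius, or products of an abelian variety and such a product,
with polynomials `f i` of weights `w i` (`IsMixed`; `w i = 1` for the polynomials `f i`, `i ∈ T`, of the
abelian variety), and **all** `Z` such that homologically trivial self-correspondences of `W × Z` are
nilpotent, and such that the eigenvalues of Frobenius on the cohomology of `Z` lie, up to powers, in a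
group generated by the nonzero elements of `E` and `r` numbers (`EigenvaluesOfRank`). For **all** `c` and
all theories `U` of cycle cohomology, on which the Frobenius endomorphism of `W × Z` acts in the usual
way, the unramified cohomology groups of `W × Z` and of `Z` in weight `c` agree up to groups of finite
exponent, and one of them is finite if and only if the other is (`UnramifiedReduces`). -/
def UnramifiedForMixed (E : IntermediateField ℚ ℂ) (q r : ℕ) {I : Type} (w : I → ℕ)
    (f : I → ℤ[X]) : Prop :=
  ∀ (k : Type) [Field k] (𝒱 : VarClass k) (C : TheoryData.{0, 0, 0} 𝒱 ℚ) [IsChow C]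
    (K : Type) [Field K] [IsAlgClosed K] [CharZero K] (H : WeilTheoryData.{0, 0, 0} C K)
    [IsWeil H] (s : ℕ) (T : Set I) (W Z : 𝒱.Obj) (πW : W ⟶ W) (πZ : Z ⟶ Z),
      IsStandard H → IsGradedCommutative H → 0 < s → (∀ i ∈ T, w i = 1) →
        IsMixed H q s w f T W πW → Pool.Agent.W484.CK.IsFrobenius C πW (q ^ s) →
          EigenvaluesOfRank H E r πZ → Nilpotence H (W.prod Z) →
            ∀ (c : ℕ) (U : CycleCohomology C), U.IsTheory c →
              U.FrobeniusActs (prodMap πW πZ) (q ^ s) → UnramifiedReduces U c W Z

end Pool.Agent.T2h14.RG
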