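import Mathlib
import Pool.Agent.T2h14.RG.UStm
import Pool.Agent.T2h14.RG.Mix
import Pool.Agent.T2h14.UC.Red

/-!
# Unramified cohomology of products of abelian varieties and varieties with simple Frobenius
-/

set_option autoImplicit false
set_option maxHeartbeats 400000

open CategoryTheory AlgebraicGeometry

namespace Pool.Agent.T2h14.RG

open Module Polynomial Pool.Agent.H914 Pool.Agent.H914.VarClass Pool.Agent.H914.VarClass.Obj
  Pool.Agent.W492.BB Pool.Agent.W484.CK Pool.Agent.W484 Pool.Agent.T2h14.UC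

/-- **Unramified cohomology of mixed products.** -/
theorem unramifiedForMixed_of {I : Type} {q : ℕ} {w : I → ℕ} {f : I → ℤ[X]}
    {E : IntermediateField ℚ ℂ} {r : ℕ} (hq : 1 < q) (hm : ∀ i, (f i).Monic)
    (hno : PW.Stm.NoRelations E q r w f) : UnramifiedForMixed E q r w f := by
  intro k _ 𝒱 C _ K _ _ _ H _ s T W Z πW πZ hS hcm hs hT hM hπ hZ hnil c U hU hF
  obtain ⟨V, hV⟩ := isRootGenerated_mixed hT (isStandard_bridge hS) hcm (by omega : q ≠ 0) (by
    intro i z hz n hzn
    refine PW.root_ne (E := E) q (fun i => (hm i).ne_zero) hno hs (⟨i, z, hz⟩ : PW.Lb K f) (n : ℤ) ?_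
    rw [zpow_natCast, hzn]
    push_cast
    rfl) hM
  obtain ⟨J, hJ, deg, D, E', hdual, hK⟩ := RG.kunneth_main hV (isStandard_bridge hS) hcm hq hm hno hs
    (isFrobenius_bridge hπ) (πZ := πZ) hZ (nilpotence_bridge hnil)
  exact reduces U hU hdual (fun z hz => hS.chow_zero W z hz)
    fun m hm => hK (corrData U hU) (isCorrTheory U hU) (actsAsPower U hU hF) c m hm

end Pool.Agent.T2h14.RG
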