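import Mathlib
import Pool.Agent.T2h14.RG.Stm

/-!
# The noncommutative Tate conjecture: statement
-/

set_option autoImplicit false

open CategoryTheory AlgebraicGeometry

namespace Pool.Agent.T2h14.RG

open Polynomial Pool.Agent.H914 Pool.Agent.H914.VarClass Pool.Agent.H914.VarClass.Obj
  Pool.Agent.W492.BB Pool.Agent.W484.CK Pool.Agent.Y154.BQ Pool.Agent.T2h14.PW.Stm

/-- `NCTateForGenerated E q r w f`: for the Chow groups `C` with rational coefficients of all classes
`𝒱` of varieties over fields `k` (finite, in the intended use), every Weil cohomology theory `H` with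
coefficients in an algebraically closed field `K` of characteristic zero and all `W`, `Z` as in
`IsSituation`: the Frobenius invariants in the sum of the `H^(2i)(W)(i)` are combinations of classes
of algebraic cycles (Tate's conjecture for `W`), and there are classes `D j` of cycles of codimension
`deg j` on `W`, finitely many, such that for all direct summands `(Z, e)` of the noncommutative motive
of `Z` the Kunneth formula for the Frobenius invariants in the cohomology of `(W × Z, 1 × e)` holds,
and the Tate conjecture holds for `(W × Z, 1 × e)` if and only if it holds for `(Z, e)`. -/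
def NCTateForGenerated (E : IntermediateField ℚ ℂ) (q r : ℕ) {I : Type} (w : I → ℕ)
    (f : I → ℤ[X]) : Prop :=
  ∀ (k : Type) [Field k] (𝒱 : VarClass k) (C : TheoryData.{0, 0, 0} 𝒱 ℚ) [IsChow C],
    IsoInvariant C → ∀ (K : Type) [Field K] [IsAlgClosed K] [CharZero K]
    (H : WeilTheoryData.{0, 0, 0} C K) [IsWeil H] (s : ℕ) (W Z : 𝒱.Obj) (πW : W ⟶ W)
    (πZ : Z ⟶ Z), RG.IsSituation H E q r s w f πW πZ →
      (∀ c : H.A W, IsTateClass H πW (q ^ s) c → InSpan H (IsCycleClass H) c) ∧
      ∃ (J : Type) (_ : Fintype J) (deg : J → ℕ) (D : J → C.A W),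
        (∀ j, C.Deg (deg j) (D j)) ∧ ∀ e : C.A (Z.prod Z), IsIdempotent C e →
          TateKunneth H πW πZ (q ^ s) e D ∧
            (NCTateConjecture H (prodMap πW πZ) (q ^ s) (relative C W e) ↔
              NCTateConjecture H πZ (q ^ s) e)

end Pool.Agent.T2h14.RG
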