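import Mathlib
import Pool.Agent.T2h14.RG.Fin
import Pool.Agent.T2h14.RG.NCStm

/-!
# The main theorems
-/

set_option autoImplicit false
set_option linter.unusedSectionVars false

open CategoryTheory AlgebraicGeometry

universe u v w

namespace Pool.Agent.T2h14.RG

open Module Polynomial Pool.Agent.H914 Pool.Agent.H914.VarClass Pool.Agent.H914.VarClass.Obj
  Pool.Agent.W492.BB Pool.Agent.W550.Corr Pool.Agent.W484.TB Pool.Agent.W484.CK Pool.Agent.W484
  Pool.Agent.Y154.BQ Pool.Agent.T2h14.PW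

section

variable {k : Type u} [Field k] {𝒱 : VarClass k} {C : TheoryData.{u, v, 0} 𝒱 ℚ} {K : Type w}
  [Field K] [CharZero K] {H : WeilTheoryData.{u, v, w} C K} [hC : IsChow C] [hH : IsWeil H]
  {W Z : 𝒱.Obj}

variable {I : Type} {q s : ℕ} {w : I → ℕ} {f : I → ℤ[X]} {πW : W ⟶ W}
  {V : I → K → H.A W → Prop} {E : IntermediateField ℚ ℂ} {r : ℕ}
  (hV : IsRootSystem H πW q s w f V)
  (hS : CH.IsStandard H) (hcm : PW.Stm.IsGradedCommutative H) (hq : 1 < q) (hm : ∀ i, (f i).Monic)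
  (hno : PW.Stm.NoRelations E q r w f) (hs : 0 < s) (hπ : CH.IsFrobenius C πW (q ^ s))

include hV hS hcm hq hm hno hs hπ in
/-- **Tate's conjecture.** -/
theorem tate_product {c : H.A W} (hc : IsTateClass H πW (q ^ s) c) :
    InSpan H (PW.Stm.IsCycleClass H) c := by
  obtain ⟨n, b, α, hb, -, hgood⟩ := exists_good_basisV hV hcm (by omega : q ≠ 0)
    (fun i => (hm i).ne_zero) hno hs (hS.finite W) hπ
  have hX1 : (Polynomial.X - 1 : ℚ[X]) ≠ 0 := by
    have := Polynomial.X_sub_C_ne_zero (1 : ℚ)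
    rwa [map_one] at this
  have hc' : c ∈ Submodule.span K {a | IsTateVector H πW (q ^ s) a} := hc
  refine Submodule.span_le.2 ?_ hc'
  rintro a ⟨i, -, hi⟩
  have hi' : H.pull πW a = ((q ^ s : ℕ) : K) ^ i • a := hi
  change a ∈ Submodule.span K {a | PW.Stm.IsCycleClass H a}
  refine eigen_mem (CH.frob H πW) (Set.range b) b.span_eq _ (((q ^ s : ℕ) : K) ^ i) ?_ hi'
  rintro _ ⟨t, rfl⟩
  by_cases ht : α t = ((q ^ s : ℕ) : K) ^ i
  · refine Or.inl ⟨?_, by rw [← ht]; exact hb t⟩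
    obtain ⟨l, -, hl⟩ := hgood _ hX1 rank_one' 1 (by rw [map_sub, aeval_X, map_one, sub_self]) t i
      (by rw [mul_one, zpow_natCast]; exact ht)
    refine Submodule.span_mono ?_ hl
    rintro _ ⟨D, hD, rfl⟩
    exact ⟨l, D, hD, rfl⟩
  · exact Or.inr ⟨α t, ht, hb t⟩

end

variable {I : Type} {q : ℕ} {w : I → ℕ} {f : I → ℤ[X]}
  {E : IntermediateField ℚ ℂ} {r : ℕ} (hq : 1 < q) (hm : ∀ i, (f i).Monic)
  (hno : PW.Stm.NoRelations E q r w f)

include hq hm hno

/-- **The noncommutative Tate conjecture.** -/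
theorem ncTateForGenerated_of : NCTateForGenerated E q r w f := by
  intro k _ 𝒱 C _ hI K _ _ _ H _ s W Z πW πZ hsit
  obtain ⟨V, hV⟩ := hsit.generated
  have hπ := isFrobenius_bridge hsit.frobenius
  obtain ⟨J, hJ, deg, D, E', hne, hdual, hK⟩ := RG.kunneth_eigen hV
    (isStandard_bridge hsit.standard) hsit.comm hq hm hno hsit.pos hπ (πZ := πZ) hsit.rank
  have hQ : q ^ s ≠ 0 := pow_ne_zero _ (by omega)
  refine ⟨fun c hc => RG.tate_product hV (isStandard_bridge hsit.standard) hsit.comm hq hm hno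
    hsit.pos hπ hc, J, hJ, deg, D, hdual.left, fun e he => ⟨tateKunneth_of hI hdual hQ hπ hK e,
    ncTate_iff hI hdual hQ hπ hK he⟩⟩

end Pool.Agent.T2h14.RG
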